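import Pool.Agent.Q160.DPG.Upper2
import Pool.Agent.Q160.DPG.Lower

/-!
# Forcing time of cliques in the degree-preserving Builder-Chooser game

The game, the forcing time `tau`, its minimum `rho` over the finite triangle-free starting graphs
and the tower function are defined in `Pool.Agent.Q160.DPG.Defs`.
-/

namespace Pool.Agent.Results.MP_f79b02_co.CliqueForcing

open Q160.DPG

/-- `rho k` is finite for every `k ≥ 3`, and it grows like a tower of twos of height `k + O(1)`. -/
theorem result :
    (∀ k : ℕ, 3 ≤ k → rho k < ⊤) ∧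
    (∀ k : ℕ, 4 ≤ k → ((tower (k - 4) + (k - 2) : ℕ) : ℕ∞) ≤ rho k ∧
      rho k ≤ ((tower (k - 2) : ℕ) : ℕ∞)) := by
  refine ⟨fun k hk => ?_, fun k hk => ⟨le_rho k hk, rho_le k (by omega)⟩⟩
  exact lt_of_le_of_lt (rho_le k (by omega)) (ENat.coe_lt_top _)

end Pool.Agent.Results.MP_f79b02_co.CliqueForcing
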